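import Mathlib
import Pool.Agent.Lib.MP_d9a4ca_co.Final

/-!
Polyhedral 3-spheres in four-dimensional Euclidean space built from rectangular boxes:
two adjacent facets lie in orthogonal 3-flats or in one common 3-flat.
-/

set_option autoImplicit false

open Metric Set MeasureTheory

namespace Pool.Agent.Results.MP_d9a4ca_co.BoxSphere

/-- four-dimensional Euclidean space -/
abbrev E : Type := EuclideanSpace ℝ (Fin 4)

/-- A rectangular box in four-dimensional Euclidean space: a base point and three nonzero,
pairwise orthogonal edge vectors. -/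
structure RectBox where
  base : E
  edge : Fin 3 → E
  edge_ne_zero : ∀ k, edge k ≠ 0
  edge_orthogonal : ∀ k l, k ≠ l → inner ℝ (edge k) (edge l) = 0

namespace RectBox

/-- The point set of the box: all points `base + t₀ e₀ + t₁ e₁ + t₂ e₂` with `0 ≤ tₖ ≤ 1`. -/
def pts (B : RectBox) : Set E :=
  {x | ∃ t : Fin 3 → ℝ, (∀ k, 0 ≤ t k ∧ t k ≤ 1) ∧ x = B.base + ∑ k, t k • B.edge k}

/-- The relative interior of the box: the points with `0 < tₖ < 1`. -/
def relInterior (B : RectBox) : Set E :=
  {x | ∃ t : Fin 3 → ℝ, (∀ k, 0 < t k ∧ t k < 1) ∧ x = B.base + ∑ k, t k • B.edge k}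

/-- The 3-flat of the box: its affine hull. -/
noncomputable def flat (B : RectBox) : AffineSubspace ℝ E := affineSpan ℝ B.pts

end RectBox

/-- Two facets are adjacent if their intersection has positive two-dimensional area. -/
def Adjacent (B C : RectBox) : Prop := 0 < μH[2] (B.pts ∩ C.pts)

/-- Two flats are orthogonal if their unit normal vectors are orthogonal. -/
def OrthogonalFlats (P Q : AffineSubspace ℝ E) : Prop :=
  ∀ m n : E, ‖m‖ = 1 → ‖n‖ = 1 → (∀ u ∈ P.direction, inner ℝ m u = 0) →
    (∀ u ∈ Q.direction, inner ℝ n u = 0) → inner ℝ m n = 0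

/-- A polyhedral 3-manifold homeomorphic to the 3-sphere whose `N` facets are rectangular boxes:
boxes with pairwise disjoint relative interiors whose union is homeomorphic to the unit sphere
of four-dimensional Euclidean space. -/
structure BoxSphere3 (N : ℕ) where
  facet : Fin N → RectBox
  disjoint_interiors : ∀ i j, i ≠ j → Disjoint (facet i).relInterior (facet j).relInterior
  homeo : Nonempty ((⋃ i, (facet i).pts : Set E) ≃ₜ sphere (0 : E) 1)

open Pool.Agent.Lib.MP_d9a4ca_co

/-- the centred form of a box -/
noncomputable def toC (B : RectBox) : CBox where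
  c := B.base + ∑ k, (1/2 : ℝ) • B.edge k
  v k := (1/2 : ℝ) • B.edge k
  ne k := smul_ne_zero (by norm_num) (B.edge_ne_zero k)
  orth k l h := by rw [inner_smul_left, inner_smul_right, B.edge_orthogonal k l h]; simp

theorem toC_pt (B : RectBox) (a : Fin 3 → ℝ) :
    (toC B).pt a = B.base + ∑ k, ((1 + a k) / 2) • B.edge k := by
  simp only [CBox.pt, toC]
  rw [add_assoc, ← Finset.sum_add_distrib]
  congr 1
  refine Finset.sum_congr rfl fun k _ => ?_
  rw [smul_smul, ← add_smul]
  congr 1
  ring

theorem toC_carrier (B : RectBox) : (toC B).carrier = B.pts := by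
  ext x
  rw [CBox.mem_carrier_iff]
  constructor
  · rintro ⟨a, ha, rfl⟩
    refine ⟨fun k => (1 + a k) / 2, fun k => ?_, toC_pt B a⟩
    have := abs_le.1 (ha k)
    constructor <;> linarith [this.1, this.2]
  · rintro ⟨t, ht, rfl⟩
    refine ⟨fun k => 2 * t k - 1, fun k => ?_, ?_⟩
    · rw [abs_le]
      constructor <;> linarith [(ht k).1, (ht k).2]
    · rw [toC_pt]
      congr 1
      refine Finset.sum_congr rfl fun k _ => ?_
      congr 1
      ring

theorem toC_relint (B : RectBox) : (toC B).relint = B.relInterior := by
  ext x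
  rw [CBox.mem_relint_iff]
  constructor
  · rintro ⟨a, ha, rfl⟩
    refine ⟨fun k => (1 + a k) / 2, fun k => ?_, toC_pt B a⟩
    have := abs_lt.1 (ha k)
    constructor <;> linarith [this.1, this.2]
  · rintro ⟨t, ht, rfl⟩
    refine ⟨fun k => 2 * t k - 1, fun k => ?_, ?_⟩
    · rw [abs_lt]
      constructor <;> linarith [(ht k).1, (ht k).2]
    · rw [toC_pt]
      congr 1
      refine Finset.sum_congr rfl fun k _ => ?_
      congr 1
      ring

/-- **Every polyhedral 3-manifold in four-dimensional Euclidean space homeomorphic to the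
3-sphere all of whose facets are rectangular boxes is orthogonal: two adjacent facets lie in
orthogonal 3-flats or in one common 3-flat.** -/
theorem result (N : ℕ) (M : BoxSphere3 N) (i j : Fin N)
    (hadj : Adjacent (M.facet i) (M.facet j)) :
    OrthogonalFlats (M.facet i).flat (M.facet j).flat ∨
      (M.facet i).flat = (M.facet j).flat := by
  obtain ⟨e⟩ := M.homeo
  have hU : (⋃ i, (toC (M.facet i)).carrier : Set E4) = ⋃ i, (M.facet i).pts :=
    iUnion_congr fun i => toC_carrier _
  let e' : (⋃ i, (toC (M.facet i)).carrier : Set E4) ≃ₜ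
      sphere (0 : EuclideanSpace ℝ (Fin 4)) 1 := (Homeomorph.setCongr hU).trans e
  let C : Config (Fin N) :=
    { B := fun i => toC (M.facet i)
      disj := fun i j h => by
        rw [toC_relint, toC_relint]; exact M.disjoint_interiors i j h
      loc := LocR3.of_homeomorph e' locR3_sphere }
  have hsc : SimplyConnectedSpace C.M := simplyConnected_of_homeomorph e'
  have hd : ∀ i, (M.facet i).flat.direction = (C.B i).V := by
    intro i
    rw [RectBox.flat, ← toC_carrier]
    exact CBox.direction_affineSpan_carrier _
  have hadj' : 0 < μH[2] ((C.B i).carrier ∩ (C.B j).carrier) := by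
    change 0 < μH[2] ((toC (M.facet i)).carrier ∩ (toC (M.facet j)).carrier)
    rw [toC_carrier, toC_carrier]
    exact hadj
  rcases C.main i j hadj' with h | h
  · left
    intro m n _ _ hm hn
    rw [hd] at hm hn
    exact h m n hm hn
  · right
    rw [RectBox.flat, RectBox.flat, ← toC_carrier, ← toC_carrier]
    exact h

end Pool.Agent.Results.MP_d9a4ca_co.BoxSphere
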